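import Pool.Agent.H45.AD.Stm3
import Pool.Agent.H45.PU.COVU

/-! AD-T2 (helper51): `S`-units and the class number of the ring of `S`-integers. -/

set_option autoImplicit false

namespace Pool.Agent.H51.AD

open Polynomial NumberField Pool.Agent.H45.RQ Pool.Agent.H45.AD Pool.Agent.H45.PU

namespace T2

theorem NS_mono {S : Finset ℕ} {Z Z' : ℝ} {N : ℤ} (h : NS S Z N) (hZ : Z ≤ Z') : NS S Z' N := by
  obtain ⟨a, b, h1, h2, h3⟩ := h
  exact ⟨a, b, h1, h2.trans hZ, h3⟩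

theorem mem_spl {d Y p : ℕ} : p ∈ spl d Y ↔ p ≤ Y ∧ p.Prime ∧ p ≠ 2 ∧ ¬ p ∣ d ∧
    IsSquare (d : ZMod p) := by
  unfold spl
  simp only [Finset.mem_filter, Finset.mem_range, Nat.lt_succ_iff]

/-- the numerical part -/
theorem numbers (s : ℕ) (S : Finset ℕ) (C₀ A l ld B q I : ℝ) (hs : S.card ≤ s)
    (hS : ∀ p ∈ S, 0 < Real.log p) (hC₀ : 1 ≤ C₀) (hA : 1 ≤ A) (hl : 2 * Real.log 2 ≤ l)
    (hB : B = A * l - Real.log 2) (hq : 0 ≤ q) (hld : 1 + ld ≤ 3 * l)
    (h : I * B * ∏ p ∈ S, (B / (2 * (S.card : ℝ) * Real.log p)) ≤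
      2 * (C₀ * q * (1 + ld))) :
    I ≤ 12 * C₀ * (4 * (s + 1)) ^ s * q / A * ∏ p ∈ S, (Real.log p / (A * l)) := by
  have hl2 : 0 < Real.log 2 := Real.log_pos one_lt_two
  have hl0 : 0 < l := by linarith
  have hAl : l ≤ A * l := le_mul_of_one_le_left hl0.le hA
  have hA0 : 0 < A := by linarith
  have hB2 : A * l / 2 ≤ B := by rw [hB]; linarith
  have hAl0 : 0 < A * l := by positivity
  have hB0 : 0 < B := by linarith
  by_cases hI : I ≤ 0
  · refine hI.trans ?_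
    have : 0 ≤ ∏ p ∈ S, (Real.log p / (A * l)) :=
      Finset.prod_nonneg fun p hp => div_nonneg (hS p hp).le hAl0.le
    positivity
  push Not at hI
  -- compare the products
  set P := ∏ p ∈ S, (Real.log p / (A * l)) with hP
  have hP0 : 0 < P := Finset.prod_pos fun p hp => div_pos (hS p hp) hAl0
  set W : ℝ := (4 * (s + 1)) ^ s with hW
  have hW0 : 0 < W := by positivity
  have hprod : 1 ≤ W * P * ∏ p ∈ S, (B / (2 * (S.card : ℝ) * Real.log p)) := by
    have h1 : (4 * ((s : ℝ) + 1)) ^ S.card ≤ W :=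
      pow_le_pow_right₀ (by linarith [Nat.cast_nonneg (α := ℝ) s]) hs
    have h2 : (4 * ((s : ℝ) + 1)) ^ S.card * P * ∏ p ∈ S, (B / (2 * (S.card : ℝ) * Real.log p)) =
        ∏ p ∈ S, ((4 * ((s : ℝ) + 1)) * (Real.log p / (A * l)) *
          (B / (2 * (S.card : ℝ) * Real.log p))) := by
      rw [Finset.prod_mul_distrib, Finset.prod_mul_distrib, Finset.prod_const]
    have h3 : 1 ≤ ∏ p ∈ S, ((4 * ((s : ℝ) + 1)) * (Real.log p / (A * l)) *
          (B / (2 * (S.card : ℝ) * Real.log p))) := by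
      have : ∀ p ∈ S, 1 ≤ (4 * ((s : ℝ) + 1)) * (Real.log p / (A * l)) *
          (B / (2 * (S.card : ℝ) * Real.log p)) := by
        intro p hp
        have hlp := hS p hp
        have hc : 0 < (S.card : ℝ) := by
          have := Finset.card_pos.2 ⟨p, hp⟩
          exact_mod_cast this
        have hcs : (S.card : ℝ) ≤ s := by exact_mod_cast hs
        have e : (4 * ((s : ℝ) + 1)) * (Real.log p / (A * l)) *
          (B / (2 * (S.card : ℝ) * Real.log p)) = (2 * ((s : ℝ) + 1) * B) / (S.card * (A * l)) := by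
          field_simp
          ring
        rw [e, one_le_div (by positivity)]
        nlinarith
      calc (1 : ℝ) = ∏ p ∈ S, (1 : ℝ) := by simp
        _ ≤ _ := Finset.prod_le_prod (fun _ _ => zero_le_one) this
    have h4 : 0 ≤ P * ∏ p ∈ S, (B / (2 * (S.card : ℝ) * Real.log p)) := by
      apply mul_nonneg hP0.le
      apply Finset.prod_nonneg
      intro p hp
      have := hS p hp
      positivity
    calc (1 : ℝ) ≤ (4 * ((s : ℝ) + 1)) ^ S.card * P *
          ∏ p ∈ S, (B / (2 * (S.card : ℝ) * Real.log p)) := by rw [h2]; exact h3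
      _ = (4 * ((s : ℝ) + 1)) ^ S.card * (P *
          ∏ p ∈ S, (B / (2 * (S.card : ℝ) * Real.log p))) := by ring
      _ ≤ W * (P * ∏ p ∈ S, (B / (2 * (S.card : ℝ) * Real.log p))) :=
          mul_le_mul_of_nonneg_right h1 h4
      _ = _ := by ring
  set Q := ∏ p ∈ S, (B / (2 * (S.card : ℝ) * Real.log p)) with hQ
  have h5 : I * (A * l / 2) ≤ 2 * (C₀ * q * (3 * l)) * (W * P) := by
    have h6 : I * (A * l / 2) ≤ I * B := mul_le_mul_of_nonneg_left hB2 hI.le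
    have h7 : I * B ≤ I * B * (W * P * Q) := by
      have : 0 ≤ I * B := by positivity
      nlinarith
    have h8 : I * B * (W * P * Q) = (I * B * Q) * (W * P) := by ring
    have h9 : (I * B * Q) * (W * P) ≤ 2 * (C₀ * q * (1 + ld)) * (W * P) :=
      mul_le_mul_of_nonneg_right h (by positivity)
    have h10 : 2 * (C₀ * q * (1 + ld)) * (W * P) ≤ 2 * (C₀ * q * (3 * l)) * (W * P) := by
      apply mul_le_mul_of_nonneg_right _ (by positivity)
      have : C₀ * q * (1 + ld) ≤ C₀ * q * (3 * l) := mul_le_mul_of_nonneg_left hld (by positivity)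
      linarith
    linarith
  have h11 : I * (A * l / 2) = (I * A) * (l / 2) := by ring
  have h12 : 2 * (C₀ * q * (3 * l)) * (W * P) = (12 * C₀ * W * q * P) * (l / 2) := by ring
  rw [h11, h12] at h5
  have h13 : I * A ≤ 12 * C₀ * W * q * P := le_of_mul_le_mul_right h5 (by positivity)
  have h14 : 12 * C₀ * W * q / A * P = (12 * C₀ * W * q * P) / A := by ring
  rw [h14, le_div_iff₀ hA0]
  exact h13

theorem t (hUN : StmtUN) (hSC : StmtSC) (hHR : StmtHR) : StmtT2 := by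
  classical
  intro s e he0 he1
  obtain ⟨c, hc0, hc1, N₁, hN₁⟩ := hUN s e he0 he1
  obtain ⟨C₀, hC₀, hR⟩ := hHR
  obtain ⟨N₂, hN₂⟩ := Filter.eventually_atTop.1 (evpow 4 c e (by norm_num) hc0 he0)
  obtain ⟨N₃, hN₃⟩ := Filter.eventually_atTop.1
    ((Real.tendsto_log_atTop.comp (tendsto_natCast_atTop_atTop (R := ℝ))).eventually
      (Filter.eventually_ge_atTop (2 : ℝ)))
  refine ⟨c, 12 * C₀ * (4 * (s + 1)) ^ s, hc0, max (max N₁ N₂) (max N₃ 1), ?_⟩
  intro N hN A hA1 hA2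
  have hNN₁ : N₁ ≤ N := le_trans (le_trans (le_max_left _ _) (le_max_left _ _)) hN
  have hNN₂ : N₂ ≤ N := le_trans (le_trans (le_max_right _ _) (le_max_left _ _)) hN
  have hNN₃ : N₃ ≤ N := le_trans (le_trans (le_max_left _ _) (le_max_right _ _)) hN
  have hN1 : 1 ≤ N := le_trans (le_trans (le_max_right _ _) (le_max_right _ _)) hN
  have hNR : (1 : ℝ) ≤ N := by exact_mod_cast hN1
  have hNR0 : (0 : ℝ) < N := by linarith
  obtain ⟨-, hev⟩ := hN₂ N hNN₂
  obtain ⟨-, -, hM⟩ := hev A hA1 hA2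
  have hlog : 2 ≤ Real.log N := hN₃ N hNN₃
  have hlog2 : Real.log 2 < 1 := by
    have := Real.log_two_lt_d9
    linarith
  have hlog20 : 0 < Real.log 2 := Real.log_pos one_lt_two
  refine le_trans ?_ (hN₁ N hNN₁ A hA1 hA2)
  have hsub : {d : ℕ | N < d ∧ d ≤ 2 * N ∧ Squarefree d ∧ ∃ S : Finset ℕ, S.card ≤ s ∧
        S ⊆ spl d ⌊(N : ℝ) ^ (c / A ^ 2)⌋₊ ∧
        ((∃ x y : ℤ, 0 ≤ x ∧ 1 ≤ y ∧ NS S ((N : ℝ) ^ (c / A ^ 2)) (x ^ 2 - d * y ^ 2) ∧
          (x : ℝ) + y * √(d : ℝ) ≤ (N : ℝ) ^ A) ∨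
        12 * C₀ * (4 * (s + 1)) ^ s * √(d : ℝ) / A * ∏ p ∈ S, (Real.log p / (A * Real.log N)) <
          ((GS d S).index : ℝ))} ⊆
      {d : ℕ | N < d ∧ d ≤ 2 * N ∧ Squarefree d ∧ ∃ S : Finset ℕ, S.card ≤ s ∧
        S ⊆ spl d ⌊(N : ℝ) ^ (c / A ^ 2)⌋₊ ∧ ∃ x y : ℤ, 0 ≤ x ∧ 1 ≤ y ∧
        NS S ((N : ℝ) ^ (c / A ^ 2)) (x ^ 2 - d * y ^ 2) ∧
        (x : ℝ) + y * √(d : ℝ) ≤ (N : ℝ) ^ A} := by
    rintro d ⟨h1, h2, h3, S, hS1, hS2, h4⟩
    refine ⟨h1, h2, h3, S, hS1, hS2, ?_⟩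
    rcases h4 with h4 | h4
    · exact h4
    by_contra hcon
    have hno : ∀ x y : ℤ, 0 ≤ x → 1 ≤ y → NS S ((N : ℝ) ^ (c / A ^ 2)) (x ^ 2 - d * y ^ 2) →
        (N : ℝ) ^ A < (x : ℝ) + y * √(d : ℝ) := by
      intro x y hx hy hns
      by_contra hle
      push Not at hle
      exact hcon ⟨x, y, hx, hy, hns, hle⟩
    have hd1 : 1 < d := by omega
    have hdR : (0 : ℝ) < d := by exact_mod_cast (by omega : 0 < d)
    set B : ℝ := A * Real.log N - Real.log 2 with hB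
    have hAl : Real.log N ≤ A * Real.log N := le_mul_of_one_le_left (by linarith) hA1
    have hB0 : 0 < B := by rw [hB]; linarith
    have hexp : 2 * Real.exp B = (N : ℝ) ^ A := by
      rw [hB, Real.exp_sub, Real.exp_log (by norm_num), Real.rpow_def_of_pos hNR0, mul_comm A]
      ring
    have h5 := hSC d _ S B hd1 h3 hB0 hS2 (by
      intro x y hx hy hns
      rw [hexp]
      exact hno x y hx hy (NS_mono hns hM))
    have h6 := hR d hd1 h3
    have h7 : ((GS d S).index : ℝ) * B * ∏ p ∈ S, (B / (2 * (S.card : ℝ) * Real.log p)) ≤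
        2 * (C₀ * √(d : ℝ) * (1 + Real.log d)) := by
      refine h5.trans ?_
      rw [mul_assoc]
      linarith
    have h8 : 1 + Real.log d ≤ 3 * Real.log N := by
      have h9 : Real.log d ≤ Real.log (2 * N) := by
        apply Real.log_le_log hdR
        exact_mod_cast h2
      rw [Real.log_mul (by norm_num) hNR0.ne'] at h9
      linarith
    have h9 := numbers s S C₀ A (Real.log N) (Real.log d) B (√(d : ℝ)) ((GS d S).index : ℝ) hS1
      (fun p hp => Real.log_pos (by exact_mod_cast (mem_spl.1 (hS2 hp)).2.1.one_lt)) hC₀ hA1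
      (by linarith) hB (Real.sqrt_nonneg _) h8 h7
    exact absurd h4 (not_lt.2 h9)
  have hfin : {d : ℕ | N < d ∧ d ≤ 2 * N ∧ Squarefree d ∧ ∃ S : Finset ℕ, S.card ≤ s ∧
        S ⊆ spl d ⌊(N : ℝ) ^ (c / A ^ 2)⌋₊ ∧ ∃ x y : ℤ, 0 ≤ x ∧ 1 ≤ y ∧
        NS S ((N : ℝ) ^ (c / A ^ 2)) (x ^ 2 - d * y ^ 2) ∧
        (x : ℝ) + y * √(d : ℝ) ≤ (N : ℝ) ^ A}.Finite :=
    (Set.finite_Icc 0 (2 * N)).subset fun d hd => ⟨Nat.zero_le _, hd.2.1⟩
  exact_mod_cast Set.ncard_le_ncard hsub hfin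

end T2

end Pool.Agent.H51.AD
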