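import Pool.Agent.H45.AD.Stm3
import Pool.Agent.H45.PU.COVU

/-! AD-UN (helper51): the union over all the sets `S`. -/

set_option autoImplicit false

namespace Pool.Agent.H51.AD

open Polynomial NumberField Pool.Agent.H45.RQ Pool.Agent.H45.AD Pool.Agent.H45.PU

namespace UN

theorem NS_mono {S : Finset ℕ} {Z Z' : ℝ} {N : ℤ} (h : NS S Z N) (hZ : Z ≤ Z') : NS S Z' N := by
  obtain ⟨a, b, h1, h2, h3⟩ := h
  exact ⟨a, b, h1, h2.trans hZ, h3⟩

theorem mem_spl {d Y p : ℕ} : p ∈ spl d Y ↔ p ≤ Y ∧ p.Prime ∧ p ≠ 2 ∧ ¬ p ∣ d ∧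
    IsSquare (d : ZMod p) := by
  unfold spl
  simp only [Finset.mem_filter, Finset.mem_range, Nat.lt_succ_iff]

/-- the number of the subsets of size at most `s` -/
theorem card_small (X : Finset ℕ) (s : ℕ) :
    (X.powerset.filter fun S => S.card ≤ s).card ≤ (X.card + 1) ^ s := by
  classical
  induction s with
  | zero =>
    rw [pow_zero]
    apply Finset.card_le_one.2
    intro S hS T hT
    rw [Finset.mem_filter] at hS hT
    have h1 : S = ∅ := Finset.card_eq_zero.1 (by omega)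
    have h2 : T = ∅ := Finset.card_eq_zero.1 (by omega)
    rw [h1, h2]
  | succ s ih =>
    have h1 : (X.powerset.filter fun S => S.card ≤ s + 1) ⊆
        ((X.powerset.filter fun S => S.card ≤ s) ×ˢ (Finset.insertNone X)).image
          (fun q => match q.2 with
            | none => q.1
            | some a => insert a q.1) := by
      intro S hS
      rw [Finset.mem_filter, Finset.mem_powerset] at hS
      rw [Finset.mem_image]
      by_cases hc : S.card ≤ s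
      · refine ⟨(S, none), ?_, rfl⟩
        rw [Finset.mem_product, Finset.mem_filter, Finset.mem_powerset]
        exact ⟨⟨hS.1, hc⟩, Finset.none_mem_insertNone⟩
      · obtain ⟨a, ha⟩ : S.Nonempty := by
          rw [← Finset.card_pos]; omega
        refine ⟨(S.erase a, some a), ?_, ?_⟩
        · rw [Finset.mem_product, Finset.mem_filter, Finset.mem_powerset]
          refine ⟨⟨(Finset.erase_subset a S).trans hS.1, ?_⟩, ?_⟩
          · rw [Finset.card_erase_of_mem ha]; omega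
          · exact Finset.some_mem_insertNone.2 (hS.1 ha)
        · exact Finset.insert_erase ha
    refine (Finset.card_le_card h1).trans (Finset.card_image_le.trans ?_)
    rw [Finset.card_product, Finset.card_insertNone, pow_succ]
    exact Nat.mul_le_mul_right _ ih

theorem KP_finite (S : Finset ℕ) (N : ℕ) (Z Y : ℝ) : (KP S N Z Y).Finite :=
  (Set.finite_Icc 0 (2 * N)).subset fun d hd => by
    obtain ⟨h1, h2, -⟩ := hd
    exact ⟨Nat.zero_le _, by omega⟩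

theorem t (hKB : StmtKB) : StmtUN := by
  classical
  intro s e he0 he1
  obtain ⟨c₁, hc₁0, hc₁1, N₁, hN₁⟩ := hKB s e he0 he1
  set c : ℝ := c₁ / (4 * (s + 1)) with hc
  have hs0 : (0 : ℝ) ≤ s := Nat.cast_nonneg s
  have hc0 : 0 < c := by positivity
  have hcc : c * (4 * (s + 1)) = c₁ := by rw [hc]; field_simp
  have hc4 : 4 * c ≤ c₁ := by nlinarith
  have hsc : 4 * (s * c) ≤ c₁ := by nlinarith
  obtain ⟨N₂, hN₂⟩ := Filter.eventually_atTop.1
    (evpow (3 ^ (s + 1)) (c₁ / 2) e (by positivity) (by positivity) he0)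
  refine ⟨c, hc0, by linarith, max (max N₁ N₂) 3, ?_⟩
  intro N hN A hA1 hA2
  have hNN₁ : N₁ ≤ N := le_trans (le_trans (le_max_left _ _) (le_max_left _ _)) hN
  have hNN₂ : N₂ ≤ N := le_trans (le_trans (le_max_right _ _) (le_max_left _ _)) hN
  have hN3 : 3 ≤ N := le_trans (le_max_right _ _) hN
  have hNR : (1 : ℝ) ≤ N := by exact_mod_cast (by omega : 1 ≤ N)
  have hNR0 : (0 : ℝ) < N := by linarith
  have hA0 : 0 < A ^ 2 := by positivity
  obtain ⟨-, hev⟩ := hN₂ N hNN₂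
  obtain ⟨-, -, hM⟩ := hev A hA1 hA2
  -- the second interval
  set N' : ℕ := N + N / 2 with hN'
  have hNN' : N ≤ N' := by omega
  have hN'R : (N : ℝ) ≤ N' := by exact_mod_cast hNN'
  have hN'2 : (N' : ℝ) ≤ 2 * N := by
    have : N' ≤ 2 * N := by omega
    exact_mod_cast this
  have hA2' : A ≤ Real.log N' ^ (1 / 2 - e) := by
    refine hA2.trans ?_
    apply Real.rpow_le_rpow (Real.log_nonneg hNR) _ (by linarith)
    exact Real.log_le_log hNR0 hN'R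
  set Z : ℝ := (N : ℝ) ^ (c / A ^ 2) with hZ
  have hZ1 : 1 ≤ Z := Real.one_le_rpow hNR (by positivity)
  have hcA : c / A ^ 2 ≤ c₁ / A ^ 2 := by
    apply div_le_div_of_nonneg_right _ hA0.le
    linarith
  have hZZ₁ : Z ≤ (N : ℝ) ^ (c₁ / A ^ 2) := Real.rpow_le_rpow_of_exponent_le hNR hcA
  have hZZ₂ : Z ≤ (N' : ℝ) ^ (c₁ / A ^ 2) :=
    hZZ₁.trans (Real.rpow_le_rpow hNR0.le hN'R (by positivity))
  set Y : ℕ := ⌊Z⌋₊ with hY
  have hYZ : (Y : ℝ) ≤ Z := Nat.floor_le (by linarith)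
  -- the family of sets
  set F : Finset (Finset ℕ) := ((Finset.range (Y + 1)).powerset.filter fun S => S.card ≤ s).filter
    fun S => ∀ p ∈ S, p.Prime ∧ p ≠ 2 ∧ p ≤ Y with hF
  have hFc : (F.card : ℝ) ≤ (3 * Z) ^ s := by
    have h1 : F.card ≤ (Y + 1 + 1) ^ s := by
      refine (Finset.card_filter_le _ _).trans ?_
      have := card_small (Finset.range (Y + 1)) s
      rwa [Finset.card_range] at this
    calc (F.card : ℝ) ≤ ((Y + 1 + 1) ^ s : ℕ) := by exact_mod_cast h1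
      _ = ((Y : ℝ) + 1 + 1) ^ s := by push_cast; ring
      _ ≤ (3 * Z) ^ s := pow_le_pow_left₀ (by positivity) (by linarith) s
  -- covering
  set G : Finset ℕ → Set ℕ := fun S => KP S N ((N : ℝ) ^ (c₁ / A ^ 2)) ((N : ℝ) ^ A) ∪
    KP S N' ((N' : ℝ) ^ (c₁ / A ^ 2)) ((N' : ℝ) ^ A) with hG
  have hGf : ∀ S, (G S).Finite := fun S => (KP_finite _ _ _ _).union (KP_finite _ _ _ _)
  have hcov : {d : ℕ | N < d ∧ d ≤ 2 * N ∧ Squarefree d ∧ ∃ S : Finset ℕ, S.card ≤ s ∧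
        S ⊆ spl d Y ∧ ∃ x y : ℤ, 0 ≤ x ∧ 1 ≤ y ∧
        NS S Z (x ^ 2 - d * y ^ 2) ∧ (x : ℝ) + y * √(d : ℝ) ≤ (N : ℝ) ^ A} ⊆
      ⋃ S ∈ F, G S := by
    rintro d ⟨h1, h2, h3, S, hS1, hS2, x, y, hx, hy, hns, hxy⟩
    have hSF : S ∈ F := by
      rw [hF, Finset.mem_filter, Finset.mem_filter, Finset.mem_powerset]
      refine ⟨⟨?_, hS1⟩, ?_⟩
      · intro p hp
        have := (mem_spl.1 (hS2 hp)).1
        rw [Finset.mem_range]; omega
      · intro p hp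
        have := mem_spl.1 (hS2 hp)
        exact ⟨this.2.1, this.2.2.1, this.1⟩
    have hSp : ∀ p ∈ S, ¬ p ∣ d ∧ IsSquare (d : ZMod p) := by
      intro p hp
      have := mem_spl.1 (hS2 hp)
      exact ⟨this.2.2.2.1, this.2.2.2.2⟩
    rw [Set.mem_iUnion₂]
    refine ⟨S, hSF, ?_⟩
    by_cases hd : 2 * d ≤ 3 * N
    · left
      exact ⟨h1, hd, Int.squarefree_natCast.2 h3, hSp, x, y, hx, hy, NS_mono hns hZZ₁, hxy⟩
    · right
      refine ⟨by omega, by omega, Int.squarefree_natCast.2 h3, hSp, x, y, hx, hy,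
        NS_mono hns hZZ₂, hxy.trans ?_⟩
      exact Real.rpow_le_rpow hNR0.le hN'R (by linarith)
  -- each member
  have hGb : ∀ S ∈ F, ((G S).ncard : ℝ) ≤ 3 * (N : ℝ) ^ (1 - c₁ / A ^ 2) := by
    intro S hS
    rw [hF, Finset.mem_filter, Finset.mem_filter] at hS
    obtain ⟨⟨-, hS1⟩, hS2⟩ := hS
    have hp1 : ∀ p ∈ S, (p : ℝ) ≤ Z := by
      intro p hp
      have : (p : ℝ) ≤ Y := by exact_mod_cast (hS2 p hp).2.2
      exact this.trans hYZ
    have h1 := hN₁ N hNN₁ A hA1 hA2 S hS1 (fun p hp => ⟨(hS2 p hp).1, (hS2 p hp).2.1,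
      (hp1 p hp).trans hZZ₁⟩)
    have h2 := hN₁ N' (hNN₁.trans hNN') A hA1 hA2' S hS1 (fun p hp => ⟨(hS2 p hp).1,
      (hS2 p hp).2.1, (hp1 p hp).trans hZZ₂⟩)
    have hexp : 0 ≤ 1 - c₁ / A ^ 2 := by
      have : c₁ / A ^ 2 ≤ 1 := by
        rw [div_le_one hA0]
        nlinarith
      linarith
    have h3 : (N' : ℝ) ^ (1 - c₁ / A ^ 2) ≤ 2 * (N : ℝ) ^ (1 - c₁ / A ^ 2) := by
      calc (N' : ℝ) ^ (1 - c₁ / A ^ 2) ≤ (2 * N) ^ (1 - c₁ / A ^ 2) :=
            Real.rpow_le_rpow (by positivity) hN'2 hexp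
        _ = 2 ^ (1 - c₁ / A ^ 2) * (N : ℝ) ^ (1 - c₁ / A ^ 2) :=
            Real.mul_rpow (by norm_num) hNR0.le
        _ ≤ 2 * (N : ℝ) ^ (1 - c₁ / A ^ 2) := by
            apply mul_le_mul_of_nonneg_right _ (by positivity)
            calc (2 : ℝ) ^ (1 - c₁ / A ^ 2) ≤ 2 ^ (1 : ℝ) :=
                  Real.rpow_le_rpow_of_exponent_le (by norm_num) (by
                    have : 0 < c₁ / A ^ 2 := by positivity
                    linarith)
              _ = 2 := Real.rpow_one 2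
    have h4 : ((G S).ncard : ℝ) ≤ (KP S N ((N : ℝ) ^ (c₁ / A ^ 2)) ((N : ℝ) ^ A)).ncard +
        (KP S N' ((N' : ℝ) ^ (c₁ / A ^ 2)) ((N' : ℝ) ^ A)).ncard := by
      exact_mod_cast Set.ncard_union_le _ _
    linarith
  have hU : ((⋃ S ∈ F, G S).ncard : ℝ) ≤ F.card * (3 * (N : ℝ) ^ (1 - c₁ / A ^ 2)) := by
    have h1 : (⋃ S ∈ F, G S).ncard ≤ ∑ S ∈ F, (G S).ncard :=
      Finset.set_ncard_biUnion_le F G
    calc ((⋃ S ∈ F, G S).ncard : ℝ) ≤ ((∑ S ∈ F, (G S).ncard : ℕ) : ℝ) := by exact_mod_cast h1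
      _ = ∑ S ∈ F, ((G S).ncard : ℝ) := by push_cast; rfl
      _ ≤ ∑ S ∈ F, (3 * (N : ℝ) ^ (1 - c₁ / A ^ 2)) := Finset.sum_le_sum hGb
      _ = F.card * (3 * (N : ℝ) ^ (1 - c₁ / A ^ 2)) := by
          rw [Finset.sum_const, nsmul_eq_mul]
  have hfin : (⋃ S ∈ F, G S).Finite := Set.Finite.biUnion F.finite_toSet fun S _ => hGf S
  have h5 : ({d : ℕ | N < d ∧ d ≤ 2 * N ∧ Squarefree d ∧ ∃ S : Finset ℕ, S.card ≤ s ∧
        S ⊆ spl d Y ∧ ∃ x y : ℤ, 0 ≤ x ∧ 1 ≤ y ∧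
        NS S Z (x ^ 2 - d * y ^ 2) ∧ (x : ℝ) + y * √(d : ℝ) ≤ (N : ℝ) ^ A}.ncard : ℝ) ≤
      (⋃ S ∈ F, G S).ncard := by
    exact_mod_cast Set.ncard_le_ncard hcov hfin
  refine h5.trans (hU.trans ?_)
  -- numbers
  have h6 : (F.card : ℝ) * (3 * (N : ℝ) ^ (1 - c₁ / A ^ 2)) ≤
      (3 * Z) ^ s * (3 * (N : ℝ) ^ (1 - c₁ / A ^ 2)) :=
    mul_le_mul_of_nonneg_right hFc (by positivity)
  refine h6.trans ?_
  have h7 : (3 * Z) ^ s = 3 ^ s * (N : ℝ) ^ (s * (c / A ^ 2)) := by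
    rw [mul_pow, hZ, ← Real.rpow_natCast ((N : ℝ) ^ (c / A ^ 2)), ← Real.rpow_mul hNR0.le]
    congr 2
    ring
  rw [h7]
  have h8 : 3 ^ s * (N : ℝ) ^ (s * (c / A ^ 2)) * (3 * (N : ℝ) ^ (1 - c₁ / A ^ 2)) =
      3 ^ (s + 1) * (N : ℝ) ^ (s * (c / A ^ 2) + (1 - c₁ / A ^ 2)) := by
    rw [Real.rpow_add hNR0]; ring
  rw [h8]
  calc 3 ^ (s + 1) * (N : ℝ) ^ (s * (c / A ^ 2) + (1 - c₁ / A ^ 2)) ≤
      (N : ℝ) ^ (c₁ / 2 / A ^ 2) * (N : ℝ) ^ (s * (c / A ^ 2) + (1 - c₁ / A ^ 2)) :=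
        mul_le_mul_of_nonneg_right hM (by positivity)
    _ = (N : ℝ) ^ (c₁ / 2 / A ^ 2 + (s * (c / A ^ 2) + (1 - c₁ / A ^ 2))) := by
        rw [← Real.rpow_add hNR0]
    _ ≤ (N : ℝ) ^ (1 - c / A ^ 2) := by
        apply Real.rpow_le_rpow_of_exponent_le hNR
        have h9 : c₁ / 2 / A ^ 2 + (s * (c / A ^ 2) + (1 - c₁ / A ^ 2)) - (1 - c / A ^ 2) =
            (c₁ / 2 + s * c + c - c₁) / A ^ 2 := by ring
        have h10 : (c₁ / 2 + s * c + c - c₁) / A ^ 2 ≤ 0 := by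
          apply div_nonpos_of_nonpos_of_nonneg _ hA0.le
          linarith
        linarith

end UN

end Pool.Agent.H51.AD
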